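import Mathlib

/-!
# The separation-size generating function is not a complete invariant of rooted trees
-/

set_option autoImplicit false

namespace Pool.Agent.Results.MP_1db03b_co.SeparationNotComplete

/-- Rooted trees: `dot` is the one-vertex tree and `graft b t` is the rooted tree `t` with one more
branch `b` attached at its root. (The branches come in an order, which `Iso` forgets.) -/
inductive RTree : Type
  | dot : RTree
  | graft : RTree → RTree → RTree

open RTree

/-- Isomorphism of rooted trees: the branches at every vertex may be permuted. -/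
inductive Iso : RTree → RTree → Prop
  | dot : Iso dot dot
  | graft {b b' t t' : RTree} : Iso b b' → Iso t t' → Iso (graft b t) (graft b' t')
  | swap (a b t : RTree) : Iso (RTree.graft a (RTree.graft b t)) (RTree.graft b (RTree.graft a t))
  | trans {a b c : RTree} : Iso a b → Iso b c → Iso a c

/-- `T` is the one-vertex tree. -/
def isDot : RTree → Bool
  | dot => true
  | graft _ _ => false

section

variable {R : Type} [CommRing R]

/-- `∏ (1 - p_{T_i}(x))` over the branches `T_i` of `T`, where `p` of a one-vertex branch is `x`
and `p` of any other branch `b` is `x (1 - ∏ ...)`, the product over the branches of `b`. -/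
def prodP (x : R) : RTree → R
  | dot => 1
  | graft b t => (1 - if isDot b then x else x * (1 - prodP x b)) * prodP x t

/-- `p_T(x)`. -/
def p (x : R) (T : RTree) : R := if isDot T then x else x * (1 - prodP x T)

/-- `p_T(x) / x`. -/
def pDiv (x : R) (T : RTree) : R := if isDot T then 1 else 1 - prodP x T

/-- `∏ A_{T_i}(x, y)` over the branches `T_i` of `T`. -/
def prodA (x y : R) : RTree → R
  | dot => 1
  | graft b t => (if isDot b then y else y + x * prodA x y b) * prodA x y t

/-- `A_T(x, y)`. -/
def A (x y : R) (T : RTree) : R := if isDot T then y else y + x * prodA x y T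

/-- `∑_i M_{T_i}(x, y, z) ∏_{j ≠ i} A_{T_j}(x, y)` over the branches of `T`. -/
def sumM (x y z : R) : RTree → R
  | dot => 0
  | graft b t => (if isDot b then 1 else pDiv z b + x * sumM x y z b) * prodA x y t +
      A x y b * sumM x y z t

/-- `M_T(x, y, z)`. -/
def M (x y z : R) (T : RTree) : R := if isDot T then 1 else pDiv z T + x * sumM x y z T

/-- `p_T(x) = x · (p_T(x) / x)`. -/
theorem p_eq (x : R) (T : RTree) : p x T = x * pDiv x T := by
  unfold p pDiv
  split <;> simp

/-- The recursion for `∏ (1 - p_{T_i})`. -/
theorem prodP_graft (x : R) (b t : RTree) :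
    prodP x (graft b t) = (1 - p x b) * prodP x t := by
  rw [prodP, p]

/-- The recursion for `∏ A_{T_i}`. -/
theorem prodA_graft (x y : R) (b t : RTree) :
    prodA x y (graft b t) = A x y b * prodA x y t := by
  rw [prodA, A]

/-- The recursion for the sum in `M`. -/
theorem sumM_graft (x y z : R) (b t : RTree) :
    sumM x y z (graft b t) = M x y z b * prodA x y t + A x y b * sumM x y z t := by
  rw [sumM, M]

theorem p_graft (x : R) (b t : RTree) : p x (graft b t) = x * (1 - prodP x (graft b t)) := by
  simp [p, isDot]

theorem A_graft (x y : R) (b t : RTree) :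
    A x y (graft b t) = y + x * prodA x y (graft b t) := by
  simp [A, isDot]

theorem M_graft (x y z : R) (b t : RTree) :
    M x y z (graft b t) = pDiv z (graft b t) + x * sumM x y z (graft b t) := by
  simp [M, isDot]

theorem pDiv_graft (x : R) (b t : RTree) :
    pDiv x (graft b t) = 1 - prodP x (graft b t) := by
  simp [pDiv, isDot]

theorem p_dot (x : R) : p x dot = x := rfl
theorem A_dot (x y : R) : A x y dot = y := rfl
theorem M_dot (x y z : R) : M x y z dot = 1 := rfl
theorem prodP_dot (x : R) : prodP x dot = 1 := rfl
theorem prodA_dot (x y : R) : prodA x y dot = 1 := rfl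
theorem sumM_dot (x y z : R) : sumM x y z dot = 0 := rfl

end

/-- The polynomial `M_T` in the variables `x, y, z`. -/
noncomputable def MPoly (T : RTree) : MvPolynomial (Fin 3) ℤ :=
  M (MvPolynomial.X 0) (MvPolynomial.X 1) (MvPolynomial.X 2) T

/-- `G_T(x) = ∫_0^1 M_T(x u, 1 - u, u) du`, as a function of the real number `x`. -/
noncomputable def G (T : RTree) (x : ℝ) : ℝ :=
  ∫ u in (0 : ℝ)..1, MvPolynomial.aeval ![x * u, 1 - u, u] (MPoly T)

/-- An invariant of rooted trees. -/
def inv : RTree → ℕ
  | dot => 0
  | graft b t => (inv b + 1) ^ 2 + inv t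

theorem inv_iso {a b : RTree} (h : Iso a b) : inv a = inv b := by
  induction h with
  | dot => rfl
  | graft _ _ ih1 ih2 => rw [inv, inv, ih1, ih2]
  | swap a b t =>
    simp only [inv]
    omega
  | trans _ _ ih1 ih2 => exact ih1.trans ih2

/-- The path with two vertices. -/
def P2 : RTree := graft dot dot

/-- The cherry. -/
def K : RTree := graft dot (graft dot dot)

/-- The first tree with 9 vertices. -/
def S : RTree := graft (graft (graft K dot) (graft dot dot)) (graft P2 dot)

/-- The second tree with 9 vertices. -/
def S' : RTree := graft (graft (graft P2 (graft dot dot)) dot) (graft K dot)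

/-- The first tree with 39 vertices. -/
def T1 : RTree := graft (graft S (graft S dot)) (graft (graft S' (graft S' dot)) dot)

/-- The second tree with 39 vertices. -/
def T2 : RTree := graft (graft S (graft S' dot)) (graft (graft S (graft S' dot)) dot)

theorem not_iso : ¬ Iso T1 T2 := by
  intro h
  have := inv_iso h
  revert this
  decide +kernel

section

variable {R : Type} [CommRing R]

theorem p_S (x : R) : p x S = p x S' := by
  simp only [S, S', K, P2, p_graft, prodP_graft, p_dot, prodP_dot]
  ring

theorem A_S (x y : R) : A x y S = A x y S' := by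
  simp only [S, S', K, P2, A_graft, prodA_graft, A_dot, prodA_dot]
  ring

theorem M_T (x y z : R) : M x y z T1 = M x y z T2 := by
  simp only [T1, T2, M_graft, A_graft, pDiv_graft, prodP_graft, prodA_graft, sumM_graft, prodP_dot,
    prodA_dot, sumM_dot, p_graft, ← p_S, ← A_S]
  ring

end

/-- There are two non-isomorphic rooted trees with the same polynomial `M`, hence with the same
`G`. -/
theorem result : ∃ T T' : RTree, ¬ Iso T T' ∧ MPoly T = MPoly T' ∧ ∀ x : ℝ, G T x = G T' x := by
  have h : MPoly T1 = MPoly T2 := M_T _ _ _
  refine ⟨T1, T2, not_iso, h, ?_⟩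
  intro x
  unfold G
  rw [h]

end Pool.Agent.Results.MP_1db03b_co.SeparationNotComplete
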